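import Pool.Agent.R257.Torus5
import Pool.Agent.R257.Torus8
import Pool.Agent.R257.Torus9

/-!
# Maximizers of the distance energies on the flat torus

Write `S, T ∈ [0, 1]` for twice the coordinate distances of two points. Convexity of
`‖·‖ ^ α` (used twice) gives `(S² + T²) ^ (α / 2) ≤ S + T - (2 - 2 ^ (α / 2)) S T` for `α ≥ 1`, and
`1 / 4 - ‖s - t‖ = ∫ h (z - s) h (z - t) dz`, with `h = ± 1 / 2` on two half circles, is a positive
definite kernel on the circle. This gives the maximal value for `1 ≤ α ≤ 2` and the equality cases.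
For `0 < α < 1` a perturbation of the uniform measure along four thin strips increases the energy.
-/

set_option autoImplicit false

open MeasureTheory Set

namespace Pool.Agent.Results.MP_ae59d5_an.TorusMaximizers

open Pool.Agent.R257.Torus

theorem sigma_singleton (q : Torus) : sigma {q} = 0 := by
  obtain ⟨a, b⟩ := q
  have h : (volume : Measure UnitAddCircle) {a} = 0 := by
    have := AddCircle.volume_closedBall (T := 1) (x := a) 0
    rw [Metric.closedBall_zero] at this
    rw [this]; simp
  unfold sigma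
  rw [← Set.singleton_prod_singleton, Measure.volume_eq_prod, Measure.prod_prod, h, zero_mul]

theorem sigma_not_max_ge_one {α : ℝ} (h : 1 ≤ α) : ¬ IsMaximizer α sigma := by
  intro hm
  rcases lt_trichotomy α 2 with h2 | h2 | h2
  · obtain ⟨p, hp⟩ := (maximizer_iff_quad h h2 _).1 hm
    have e := sigma_singleton p
    rw [hp] at e
    simp [quad] at e
  · subst h2
    obtain ⟨p, t, h0, h1, hp⟩ := (maximizer_two_iff _).1 hm
    rcases le_total t (1 / 2) with ht | ht
    · have e := sigma_singleton (p + (half, 0))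
      rw [hp] at e
      simp [nu] at e
      linarith
    · have e := sigma_singleton p
      rw [hp] at e
      simp [nu] at e
      linarith
  · obtain ⟨p, hp⟩ := (maximizer_iff_nu h2 _).1 hm
    have e := sigma_singleton p
    rw [hp] at e
    simp [nu] at e

/-- **Maximizers of the distance energies `I_α` on the flat torus.** -/
theorem result :
    -- `rho` is the quotient distance of `ℝ² / ℤ²`
    (∀ a b c d : ℝ, IsLeast {r : ℝ | ∃ k l : ℤ, r = Real.sqrt ((a - c + k) ^ 2 + (b - d + l) ^ 2)}
      (rho ((a : UnitAddCircle), (b : UnitAddCircle)) ((c : UnitAddCircle), (d : UnitAddCircle)))) ∧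
    -- for `1 ≤ α < 2` the maximizers are exactly the uniform measures on the cosets
    -- of the four points `{0, 1/2}²`
    (∀ α : ℝ, 1 ≤ α → α < 2 → ∀ μ : Measure Torus, IsMaximizer α μ ↔ ∃ p, μ = quad p) ∧
    (∀ α : ℝ, 0 < α → ∀ p : Torus, energy α (quad p) = (2 ^ (1 - α) + 2 ^ (-α / 2)) / 4) ∧
    -- the maximizers for `α = 2`
    (∀ μ : Measure Torus, IsMaximizer 2 μ ↔ ∃ p, ∃ t : ℝ, 0 ≤ t ∧ t ≤ 1 ∧
      μ = ENNReal.ofReal t • nu p + ENNReal.ofReal (1 - t) • nu (p + (half, 0))) ∧
    -- for `α > 2` the maximizers are exactly the measures `ν_p`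
    (∀ α : ℝ, 2 < α → ∀ μ : Measure Torus, IsMaximizer α μ ↔ ∃ p, μ = nu p) ∧
    -- for `0 < α < 1` no maximizer has an atom
    (∀ α : ℝ, 0 < α → α < 1 → ∀ μ : Measure Torus, IsMaximizer α μ → ∀ p, μ {p} = 0) ∧
    -- the uniform measure is never a maximizer
    (∀ α : ℝ, 0 < α → ¬ IsMaximizer α sigma) ∧
    -- `ν_p` is a maximizer exactly for `α ≥ 2`
    (∀ α : ℝ, 0 < α → ∀ p : Torus, IsMaximizer α (nu p) ↔ 2 ≤ α) := by
  refine ⟨rho_isLeast, fun α h1 h2 μ => maximizer_iff_quad h1 h2 μ,
    fun α hα p => energy_quad hα p, maximizer_two_iff, fun α h μ => maximizer_iff_nu h μ,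
    fun α h0 h1 μ hm p => no_atoms h0 h1 hm p, ?_, fun α h p => nu_max_iff h p⟩
  intro α hα
  rcases lt_or_ge α 1 with h | h
  · exact sigma_not_max_lt_one hα h
  · exact sigma_not_max_ge_one h

end Pool.Agent.Results.MP_ae59d5_an.TorusMaximizers
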